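import Pool.Agent.Helper15.UL.GoalsE

/-!
# MP_57a173_lc, packet GEN
-/

noncomputable section

namespace UL.PkGEN

open UL MeasureTheory

/-- The sigma-algebra of the sets with the property `C`. -/
@[instance_reducible] def msOf {X : Type} (C : Set X → Prop) (h0 : C ∅) (hc : ∀ S, C S → C Sᶜ)
    (hU : ∀ S : ℕ → Set X, (∀ n, C (S n)) → C (⋃ n, S n)) : MeasurableSpace X where
  MeasurableSet' := C
  measurableSet_empty := h0
  measurableSet_compl := hc
  measurableSet_iUnion := hU

theorem genBy_of {X : Type} [inst : MeasurableSpace X] {𝒢 : Set (Set X)}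
    (h : ∀ m : MeasurableSpace X, (∀ S ∈ 𝒢, @MeasurableSet X m S) → @Measurable X X m inst id) :
    GenBy 𝒢 := by
  intro C h0 hG hc hU S hS
  exact h (msOf C h0 hc hU) hG hS

theorem thm : UL.G_GEN := by
  refine ⟨?_, ?_, ?_, ?_⟩
  · intro I
    apply genBy_of
    intro m hm
    apply measurable_pi_lambda
    intro ξ
    apply Measurable.subtype_mk
    apply measurable_pi_lambda
    intro i
    apply measurable_to_bool
    exact hm _ ⟨ξ, i, rfl⟩
  · intro I
    apply genBy_of
    intro m hm
    apply Measurable.prodMk
    · apply measurable_pi_lambda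
      intro n
      apply measurable_to_bool
      exact hm _ (Or.inl ⟨n, rfl⟩)
    · apply measurable_pi_lambda
      intro ξ
      apply Measurable.subtype_mk
      apply measurable_pi_lambda
      intro i
      apply measurable_to_bool
      exact hm _ (Or.inr ⟨ξ, i, rfl⟩)
  · intro J
    apply genBy_of
    intro m hm
    apply measurable_pi_lambda
    intro j
    apply measurable_to_bool
    exact hm _ ⟨j, rfl⟩
  · apply genBy_of
    intro m hm
    apply Measurable.prodMk
    · apply measurable_pi_lambda
      intro n
      apply measurable_to_bool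
      exact hm _ (Or.inl ⟨n, rfl⟩)
    · apply measurable_pi_lambda
      intro n
      apply measurable_to_bool
      exact hm _ (Or.inr ⟨n, rfl⟩)

end UL.PkGEN
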